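import Pool.Agent.H27.CAL.Stmts2

/-!
# Project CAL, module GAMNO
-/

open scoped Topology
open Filter

namespace CAL

section
variable {𝕜 : Type*} [RCLike 𝕜] {X Z : Type*} [NormedAddCommGroup X] [NormedSpace 𝕜 X]
    [NormedAddCommGroup Z] [NormedSpace 𝕜 Z]

theorem gamno_cpt {S : Set ((X →L[𝕜] X) × (Z →L[𝕜] Z))} {c0 : ℝ} (A : AbsData S c0)
    {T : X →L[𝕜] X} (hT : IsCompactOperator T) : Gam S T 0 0 := by
  intro e he
  refine ⟨0, A.zero, T, hT, ?_, ?_⟩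
  · have : T - (0 : 𝕜) • ContinuousLinearMap.id 𝕜 X - (0 : (X →L[𝕜] X) × (Z →L[𝕜] Z)).1 - T = 0 := by
      simp
    rw [this, norm_zero]; exact he.le
  · simp [he.le]

theorem gamno_ker [CompleteSpace X] {S : Set ((X →L[𝕜] X) × (Z →L[𝕜] Z))} {c0 : ℝ}
    (A : AbsData S c0) {T : X →L[𝕜] X} (hT : Gam S T 0 0) : IsCompactOperator T := by
  have hcl : IsClosed {f : X →L[𝕜] X | IsCompactOperator f} :=
    isClosed_setOfPred_isCompactOperator
  have : T ∈ closure {f : X →L[𝕜] X | IsCompactOperator f} := by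
    rw [Metric.mem_closure_iff]
    intro ε hε
    obtain ⟨s, hs, K, hK, h1, h2⟩ := hT (ε / 4) (by linarith)
    obtain ⟨K', hK', h3⟩ := A.up s hs
    refine ⟨K + K', IsCompactOperator.add hK hK', ?_⟩
    have h4 : ‖s.2‖ ≤ ε / 4 := by
      rw [zero_sub, norm_neg] at h2; exact h2
    have h5 : T - (K + K') = (T - (0 : 𝕜) • ContinuousLinearMap.id 𝕜 X - s.1 - K) + (s.1 - K') := by
      rw [zero_smul]; abel
    rw [dist_eq_norm, h5]
    calc _ ≤ _ := norm_add_le _ _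
      _ < ε := by linarith
  rw [hcl.closure_eq] at this
  exact this

theorem gamno_c {S : Set ((X →L[𝕜] X) × (Z →L[𝕜] Z))} {c0 : ℝ}
    (A : AbsData S c0) {T : X →L[𝕜] X} {c : 𝕜} {V : Z →L[𝕜] Z} (hT : Gam S T c V) :
    c0 * ‖c‖ ≤ ‖T‖ := by
  apply le_of_forall_pos_le_add
  intro e he
  obtain ⟨s, hs, K, hK, h1, h2⟩ := hT e he
  have h3 := A.ch c s hs K hK
  have h4 : c • ContinuousLinearMap.id 𝕜 X + s.1 + K =
      T - (T - c • ContinuousLinearMap.id 𝕜 X - s.1 - K) := by abel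
  rw [h4] at h3
  calc _ ≤ _ := h3
    _ ≤ _ := norm_sub_le _ _
    _ ≤ _ := by linarith

theorem gamno_V {S : Set ((X →L[𝕜] X) × (Z →L[𝕜] Z))} {c0 : ℝ}
    (A : AbsData S c0) {T : X →L[𝕜] X} {c : 𝕜} {V : Z →L[𝕜] Z} (hT : Gam S T c V) :
    ‖V‖ ≤ 2 * ‖T‖ + 2 * ‖c‖ := by
  apply le_of_forall_pos_le_add
  intro e he
  obtain ⟨s, hs, K, hK, h1, h2⟩ := hT (e / 3) (by linarith)
  have h3 := A.lo s hs (-K) (IsCompactOperator.neg hK)
  have h4 : s.1 - -K = T - c • ContinuousLinearMap.id 𝕜 X -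
      (T - c • ContinuousLinearMap.id 𝕜 X - s.1 - K) := by abel
  rw [h4] at h3
  have h5 : ‖c • ContinuousLinearMap.id 𝕜 X‖ ≤ ‖c‖ := by
    rw [norm_smul]
    have := ContinuousLinearMap.norm_id_le (𝕜 := 𝕜) (E := X)
    nlinarith [norm_nonneg c]
  have h6 := norm_sub_le (T - c • ContinuousLinearMap.id 𝕜 X)
    (T - c • ContinuousLinearMap.id 𝕜 X - s.1 - K)
  have h7 := norm_sub_le T (c • ContinuousLinearMap.id 𝕜 X)
  have h8 : ‖V‖ ≤ ‖V - s.2‖ + ‖s.2‖ := by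
    have := norm_add_le (V - s.2) s.2
    rwa [sub_add_cancel] at this
  linarith

theorem gamno_T0 [CompleteSpace X] {S : Set ((X →L[𝕜] X) × (Z →L[𝕜] Z))} {c0 : ℝ}
    (A : AbsData S c0) {T : X →L[𝕜] X} {c : 𝕜} {V : Z →L[𝕜] Z} (hT : Gam S T c V) :
    ∃ T0 : X →L[𝕜] X, IsCompactOperator T0 ∧ ‖T - T0‖ ≤ 5 * (‖c‖ + ‖V‖) := by
  rcases eq_or_lt_of_le (add_nonneg (norm_nonneg c) (norm_nonneg V)) with h0 | h0
  · have hc : c = 0 := by
      rw [← norm_eq_zero]; linarith [norm_nonneg c, norm_nonneg V]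
    have hV : V = 0 := by
      rw [← norm_eq_zero]; linarith [norm_nonneg c, norm_nonneg V]
    subst hc; subst hV
    refine ⟨T, gamno_ker A hT, ?_⟩
    rw [sub_self, norm_zero, ← h0, mul_zero]
  · obtain ⟨s, hs, K, hK, h1, h2⟩ := hT _ h0
    obtain ⟨K', hK', h3⟩ := A.up s hs
    refine ⟨K + K', IsCompactOperator.add hK hK', ?_⟩
    have h4 : ‖s.2‖ ≤ ‖V‖ + (‖c‖ + ‖V‖) := by
      have := norm_sub_le V (V - s.2)
      rw [sub_sub_cancel] at this
      linarith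
    have h5 : T - (K + K') = (T - c • ContinuousLinearMap.id 𝕜 X - s.1 - K) + (s.1 - K') +
        c • ContinuousLinearMap.id 𝕜 X := by
      abel
    have h6 : ‖c • ContinuousLinearMap.id 𝕜 X‖ ≤ ‖c‖ := by
      rw [norm_smul]
      have := ContinuousLinearMap.norm_id_le (𝕜 := 𝕜) (E := X)
      nlinarith [norm_nonneg c]
    rw [h5]
    have h7 := norm_add_le ((T - c • ContinuousLinearMap.id 𝕜 X - s.1 - K) + (s.1 - K'))
      (c • ContinuousLinearMap.id 𝕜 X)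
    have h8 := norm_add_le (T - c • ContinuousLinearMap.id 𝕜 X - s.1 - K) (s.1 - K')
    have := norm_nonneg c
    linarith

theorem gamno_surj [CompleteSpace X] {S : Set ((X →L[𝕜] X) × (Z →L[𝕜] Z))} {c0 : ℝ}
    (A : AbsData S c0) (c : 𝕜) (V : Z →L[𝕜] Z) (hV : IsCompactOperator V) :
    ∃ T, Gam S T c V := by
  have h1 : ∀ n : ℕ, ∃ s ∈ S, ‖V - s.2‖ ≤ (1 / 2 : ℝ) ^ n := fun n =>
    A.den V hV _ (by positivity)
  choose s hs hsV using h1
  have h2 : ∀ n : ℕ, ∃ K : X →L[𝕜] X, IsCompactOperator K ∧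
      ‖((s (n + 1)).1 - (s n).1) - K‖ ≤ 4 * (1 / 2 : ℝ) ^ n := by
    intro n
    have hm : s (n + 1) + (-1 : 𝕜) • s n ∈ S := A.add _ (hs _) _ (A.smul _ (hs _) _)
    obtain ⟨K, hK, h3⟩ := A.up _ hm
    refine ⟨K, hK, ?_⟩
    have h4 : (s (n + 1) + (-1 : 𝕜) • s n).1 = (s (n + 1)).1 - (s n).1 := by
      simp [sub_eq_add_neg]
    have h5 : (s (n + 1) + (-1 : 𝕜) • s n).2 = (V - (s n).2) - (V - (s (n + 1)).2) := by
      have h6 : (s (n + 1) + (-1 : 𝕜) • s n).2 = (s (n + 1)).2 - (s n).2 := by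
        simp [sub_eq_add_neg]
      rw [h6]; abel
    rw [h4, h5] at h3
    have h6 := norm_sub_le (V - (s n).2) (V - (s (n + 1)).2)
    have h7 := hsV n
    have h8 := hsV (n + 1)
    have h9 : (1 / 2 : ℝ) ^ (n + 1) ≤ (1 / 2 : ℝ) ^ n :=
      pow_le_pow_of_le_one (by norm_num) (by norm_num) (Nat.le_succ n)
    linarith
  choose K hK hKs using h2
  set P : ℕ → (X →L[𝕜] X) := fun N => (s N).1 - ∑ n ∈ Finset.range N, K n with hP
  have hPd : ∀ n, dist (P n) (P (n + 1)) ≤ 4 * (1 / 2 : ℝ) ^ n := by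
    intro n
    rw [dist_comm, dist_eq_norm]
    have : P (n + 1) - P n = ((s (n + 1)).1 - (s n).1) - K n := by
      simp only [hP, Finset.sum_range_succ]; abel
    rw [this]; exact hKs n
  have hcau : CauchySeq P := cauchySeq_of_le_geometric (1 / 2) 4 (by norm_num) hPd
  obtain ⟨T', hT'⟩ := cauchySeq_tendsto_of_complete hcau
  refine ⟨c • ContinuousLinearMap.id 𝕜 X + T', ?_⟩
  intro e he
  have hsum : ∀ N, IsCompactOperator ((∑ n ∈ Finset.range N, K n : X →L[𝕜] X)) := by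
    intro N
    induction N with
    | zero => simpa using isCompactOperator_zero
    | succ N ih =>
      rw [Finset.sum_range_succ]
      exact IsCompactOperator.add ih (hK N)
  have hpow : Tendsto (fun n : ℕ => (1 / 2 : ℝ) ^ n) atTop (𝓝 0) :=
    tendsto_pow_atTop_nhds_zero_of_lt_one (by norm_num) (by norm_num)
  obtain ⟨N1, hN1⟩ := (Metric.tendsto_atTop.1 hT') e he
  obtain ⟨N2, hN2⟩ := (Metric.tendsto_atTop.1 hpow) e he
  set N := max N1 N2 with hN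
  refine ⟨s N, hs N, -∑ n ∈ Finset.range N, K n, IsCompactOperator.neg (hsum N), ?_, ?_⟩
  · have h3 := hN1 N (le_max_left _ _)
    rw [dist_comm, dist_eq_norm] at h3
    have h4 : c • ContinuousLinearMap.id 𝕜 X + T' - c • ContinuousLinearMap.id 𝕜 X - (s N).1 -
        -∑ n ∈ Finset.range N, K n = T' - P N := by
      simp only [hP]; abel
    rw [h4]; exact h3.le
  · have h3 := hN2 N (le_max_right _ _)
    rw [Real.dist_eq, sub_zero, abs_of_nonneg (by positivity)] at h3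
    exact (hsV N).trans h3.le

end

theorem cal_gamno (𝕜 : Type*) [RCLike 𝕜] (X Z : Type*) [NormedAddCommGroup X] [NormedSpace 𝕜 X]
    [NormedAddCommGroup Z] [NormedSpace 𝕜 Z] [CompleteSpace X] : GAMNOStmt 𝕜 X Z := by
  intro S c0 A
  have hc0 := A.pos
  refine ⟨max 5 (2 + 3 / c0), fun c V hV => gamno_surj A c V hV, fun T hT => gamno_cpt A hT,
    fun T hT => gamno_ker A hT, fun T c V h => ?_, fun T c V h => ?_⟩
  · have h1 := gamno_c A h
    have h2 := gamno_V A h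
    have h3 : ‖c‖ ≤ ‖T‖ / c0 := by
      rw [le_div_iff₀ hc0]; linarith
    have h4 : ‖c‖ + ‖V‖ ≤ (2 + 3 / c0) * ‖T‖ := by
      have : (2 + 3 / c0) * ‖T‖ = 2 * ‖T‖ + 3 * (‖T‖ / c0) := by ring
      rw [this]; linarith
    exact h4.trans (mul_le_mul_of_nonneg_right (le_max_right _ _) (norm_nonneg _))
  · obtain ⟨T0, h0, h1⟩ := gamno_T0 A h
    exact ⟨T0, h0, h1.trans (mul_le_mul_of_nonneg_right (le_max_left _ _)
      (add_nonneg (norm_nonneg _) (norm_nonneg _)))⟩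

end CAL
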