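import Pool.Agent.H27.CAL.Stmts2

/-!
# Project CAL, module TRALL
-/

open scoped Topology
open Filter

namespace CAL

theorem trall_empty {K : Type*} [TopologicalSpace K] : HasFor (∅ : Set K) :=
  ⟨fun _ _ => False,
    { mem := fun _ _ h => h.elim
      refl := fun _ h => h.elim
      anti := fun _ _ h => h.elim
      trans := fun _ _ _ h => h.elim
      fin := fun a => by
        have h : {b : K | (fun _ _ => False : K → K → Prop) b a} = ∅ := by
          ext b; simp
        rw [h]; exact Set.finite_empty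
      tot := fun _ _ _ h => h.elim
      clop := fun _ h => h.elim
      wf := fun f h => (h 0).1 }⟩

theorem trall_cov {K : Type*} [TopologicalSpace K] (h : TRCOVStmt K) [Countable K] (T : Set K)
    (hT : ∀ x ∈ T, ∃ W, IsClopen W ∧ HasFor W ∧ x ∈ W ∧ W ⊆ T) : HasFor T := by
  rcases Set.eq_empty_or_nonempty T with rfl | hne
  · exact trall_empty
  · obtain ⟨f, hf⟩ := (Set.to_countable T).exists_eq_range hne
    have hfT : ∀ n, f n ∈ T := fun n => by rw [hf]; exact ⟨n, rfl⟩
    choose! W hW using hT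
    have key := h (fun n => W (f n)) (fun n => (hW _ (hfT n)).1) (fun n => (hW _ (hfT n)).2.1)
    have heq : (⋃ n, W (f n)) = T := by
      apply Set.Subset.antisymm
      · exact Set.iUnion_subset fun n => (hW _ (hfT n)).2.2.2
      · intro x hx
        rw [hf] at hx
        obtain ⟨n, rfl⟩ := hx
        exact Set.mem_iUnion.2 ⟨n, (hW _ (hfT n)).2.2.1⟩
    rw [heq] at key
    exact key

theorem cal_trall {K : Type*} [TopologicalSpace K] (h1 : TRCOVStmt K) (h2 : TRRTStmt K)
    (h3 : TRSUBStmt K) (h4 : TRCLStmt K) (h5 : TRISStmt K) : TRALLStmt K := by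
  intro hK hM hC
  have hcl := h4 hM hC
  set O : Set K := ⋃₀ {V | IsClopen V ∧ HasFor V} with hO
  have hOopen : IsOpen O := isOpen_sUnion fun V hV => hV.1.isOpen
  have hOall : O = Set.univ := by
    by_contra hne
    have hCne : (Oᶜ).Nonempty := by
      rw [Set.nonempty_compl]; exact hne
    obtain ⟨x, hx, U, hU, hUx⟩ := h5 hK hM hC Oᶜ hOopen.isClosed_compl hCne
    have hxU : x ∈ U := by
      have : x ∈ U ∩ Oᶜ := by rw [hUx]; exact rfl
      exact this.1
    obtain ⟨V, hV, hxV, hVU⟩ := hcl x U hU hxU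
    have hsub : V \ {x} ⊆ O := by
      intro y hy
      by_contra hyO
      have : y ∈ U ∩ Oᶜ := ⟨hVU hy.1, hyO⟩
      rw [hUx] at this
      exact hy.2 this
    have hT1 : T1Space K := inferInstance
    have hVx : HasFor (V \ {x}) := by
      apply trall_cov h1
      intro y hy
      obtain ⟨V', hV', hyV'⟩ := hsub hy
      have hop : IsOpen ((V \ {x}) ∩ V') :=
        (hV.isOpen.sdiff isClosed_singleton).inter hV'.1.isOpen
      obtain ⟨W, hW, hyW, hWs⟩ := hcl y _ hop ⟨hy, hyV'⟩
      exact ⟨W, hW, h3 V' W hW (fun z hz => (hWs hz).2) hV'.2, hyW, fun z hz => (hWs hz).1⟩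
    have hVf : HasFor V := h2 V x hV hxV hVx
    exact hx ⟨V, ⟨hV, hVf⟩, hxV⟩
  apply trall_cov h1
  intro x _
  have hx : x ∈ O := by rw [hOall]; exact Set.mem_univ x
  obtain ⟨V, hV, hxV⟩ := hx
  exact ⟨V, hV.1, hV.2, hxV, Set.subset_univ _⟩

end CAL
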